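import Pool.Agent.Q28.HJ.GDefs
import Pool.Agent.Q200.HP.PDefs

/-!
# Motivic cohomology of sums of ternary cubic forms over finite fields: definitions
-/

open CategoryTheory MonoidalCategory

universe v u w w'

namespace Pool.Agent.Q200.HE

open Pool.Agent.Q28.HJ (pow JoinData GenBy)
open Pool.Agent.Q200.HP (Motivic)

/-- The category `𝓜` of Chow motives, with rational coefficients, over an algebraic closure of a
finite field of characteristic at least five, with the hypersurfaces, the numerically trivial
morphisms and motivic cohomology. -/
structure FinData (𝓜 : Type u) [Category.{v} 𝓜] [MonoidalCategory 𝓜] extends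
    JoinData.{v, u, w} 𝓜 where
  /-- `M = h^1(E)` for an elliptic curve `E` -/
  Ell : 𝓜 → Prop
  /-- the motive of a smooth hypersurface -/
  mot : Hyp → 𝓜
  /-- the morphism of Chow motives is numerically trivial -/
  null : ∀ {M N : 𝓜}, (M ⟶ N) → Prop
  /-- the motivic cohomology groups `CH^i(M, j) = H^(2i-j)(M, ℚ(i))` -/
  H : Motivic.{v, u, w'} 𝓜 L

namespace FinData

variable {𝓜 : Type u} [Category.{v} 𝓜] [MonoidalCategory 𝓜] [Preadditive 𝓜]
  (T : FinData.{v, u, w, w'} 𝓜)

/-- The numerically trivial cycles in `CH^i(M) = Hom(L^i, M)` are zero, and `CH^i(M, j) = 0` for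
`j ≥ 1`, for all `i`. For the motive `M` of a smooth projective variety `X` of dimension `d` over
a finite field this says that all the pairings
`H^i(X, ℚ(n)) × H^(2d-i)(X, ℚ(d-n)) → ℚ` are perfect. -/
def Perfect (M : 𝓜) : Prop :=
  ∀ i, (∀ f : pow T.L i ⟶ M, T.null f → f = 0) ∧ ∀ j, 1 ≤ j → T.H.Zero j i M

/-- Known facts: `core`: sums of forms (Shioda, Katsura); `elliptic`: plane cubic curves, cubic
surfaces, quartic curves `f(x, y) = u ^ 4`; `mot`: the motive of a hypersurface is a direct sum of
`M_X` and of powers of `L`; `known`: for the motives generated by elliptic curves the numerically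
trivial cycles and the groups `CH^i(M, j)`, `j ≥ 1`, are zero (Spiess: the Tate conjecture; Kahn). -/
structure Facts : Prop where
  core : T.CoreFacts
  elliptic : T.EllipticFacts T.Ell
  mot : ∀ X : T.Hyp, T.Smooth X → GenBy T.L (fun N => N = T.prim X) (T.mot X)
  known : ∀ M : 𝓜, GenBy T.L T.Ell M → T.Perfect M

end FinData

/-- The data `FinData`, together with the schemes of finite type over finite fields of characteristic
at least five. -/
structure VarData (𝓜 : Type u) [Category.{v} 𝓜] [MonoidalCategory 𝓜] extends
    FinData.{v, u, w, w'} 𝓜 where
  /-- the separated schemes `X` of finite type over finite fields of characteristic at least five -/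
  Var : Type w
  /-- `X` is smooth and projective -/
  SmProj : Var → Prop
  /-- the Chow motive over the algebraic closure of a smooth projective `X` -/
  motV : Var → 𝓜
  /-- `Dec Z X U`: `Z` is a closed subscheme of `X` and `U = X - Z` -/
  Dec : Var → Var → Var → Prop
  /-- for all `i` and `n` the pairing `H_i^c(X, ℚ(n)) × H^i_c(X, ℚ(n)) → ℚ` is perfect -/
  PairingsPerfect : Var → Prop

namespace VarData

variable {𝓜 : Type u} [Category.{v} 𝓜] [MonoidalCategory 𝓜] [Preadditive 𝓜]
  (T : VarData.{v, u, w, w'} 𝓜)

/-- The motive is obtained by tensor products, direct sums, direct summands and Tate twists from the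
motives `h^1(E)` of elliptic curves and the motives of the smooth hypersurfaces of arbitrary dimension
which are sums, in disjoint sets of variables, of cubic forms in at most three variables or of binary
quartic forms (see `IsEllipticSum`). -/
def EllipticType (M : 𝓜) : Prop :=
  GenBy T.L (fun N => T.Ell N ∨ ∃ W, T.IsEllipticSum W ∧ N = T.mot W) M

/-- The schemes obtained by decompositions `X = Z ∪ U`, `Z` closed, `U` open, from the smooth
projective ones whose motives are of type `EllipticType`: if two of the three `Z`, `X`, `U` belong to
the class, so does the third. -/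
inductive Built : T.Var → Prop
  | proj (X : T.Var) (h : T.SmProj X) (hM : T.EllipticType (T.motV X)) : Built X
  | total {Z X U : T.Var} (h : T.Dec Z X U) (hZ : Built Z) (hU : Built U) : Built X
  | opens {Z X U : T.Var} (h : T.Dec Z X U) (hZ : Built Z) (hX : Built X) : Built U
  | closed {Z X U : T.Var} (h : T.Dec Z X U) (hX : Built X) (hU : Built U) : Built Z

/-- Known facts: those of `FinData.Facts`; `proj`: the pairings are perfect for a smooth projective `X`
if the numerically trivial cycles and the groups `CH^i(X, j)`, `j ≥ 1`, are zero rationally (they may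
be computed over the algebraic closure); `total`, `opens`, `closed`: the localisation sequences and the
five lemma. -/
structure Facts : Prop where
  base : T.toFinData.Facts
  proj : ∀ X : T.Var, T.SmProj X → T.Perfect (T.motV X) → T.PairingsPerfect X
  total : ∀ {Z X U : T.Var}, T.Dec Z X U → T.PairingsPerfect Z → T.PairingsPerfect U →
    T.PairingsPerfect X
  opens : ∀ {Z X U : T.Var}, T.Dec Z X U → T.PairingsPerfect Z → T.PairingsPerfect X →
    T.PairingsPerfect U
  closed : ∀ {Z X U : T.Var}, T.Dec Z X U → T.PairingsPerfect X → T.PairingsPerfect U →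
    T.PairingsPerfect Z

end VarData

end Pool.Agent.Q200.HE
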