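import Pool.Agent.Q200.HE.Defs
import Pool.Agent.Q28.HJ.GMain

/-!
# Motivic cohomology of sums of ternary cubic forms over finite fields
-/

open CategoryTheory MonoidalCategory

universe v u w w'

namespace Pool.Agent.Q200.HE

open Pool.Agent.Q28.HJ (pow JoinData GenBy)

namespace FinData

variable {𝓜 : Type u} [Category.{v} 𝓜] [Preadditive 𝓜] [MonoidalCategory 𝓜]
  {T : FinData.{v, u, w, w'} 𝓜}

/-- the motives in question are generated by elliptic curves -/
lemma gen_ell (hT : T.Facts) {M : 𝓜}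
    (hM : GenBy T.L (fun N => T.Ell N ∨ ∃ W, T.IsEllipticSum W ∧ N = T.mot W) M) :
    GenBy T.L T.Ell M := by
  refine hM.bind ?_
  rintro N (hN | ⟨W, hW, rfl⟩)
  · exact .of hN
  · obtain ⟨⟨hs, -⟩, h⟩ := JoinData.elliptic_sum hT.core hT.elliptic hW
    refine (hT.mot W hs).bind ?_
    rintro N rfl
    exact h

/-- main theorem -/
theorem final (hT : T.Facts) (M : 𝓜)
    (hM : GenBy T.L (fun N => T.Ell N ∨ ∃ W, T.IsEllipticSum W ∧ N = T.mot W) M) : T.Perfect M :=
  hT.known M (gen_ell hT hM)

end FinData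

namespace VarData

variable {𝓜 : Type u} [Category.{v} 𝓜] [Preadditive 𝓜] [MonoidalCategory 𝓜]
  {T : VarData.{v, u, w, w'} 𝓜}

/-- main theorem -/
theorem final (hT : T.Facts) : (∀ M : 𝓜, T.EllipticType M → T.Perfect M) ∧
    ∀ X : T.Var, T.Built X → T.PairingsPerfect X := by
  have h1 : ∀ M : 𝓜, T.EllipticType M → T.Perfect M :=
    fun M hM => FinData.final hT.base M hM
  refine ⟨h1, fun X hX => ?_⟩
  induction hX with
  | proj X h hM => exact hT.proj X h (h1 _ hM)
  | total h _ _ a b => exact hT.total h a b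
  | opens h _ _ a b => exact hT.opens h a b
  | closed h _ _ a b => exact hT.closed h a b

end VarData

end Pool.Agent.Q200.HE
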