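import Pool.Agent.Q28.HJ.Small

/-!
# Semisimplicity for varieties dominated by sums of small forms: definitions
-/

open CategoryTheory MonoidalCategory

universe v u w

namespace Pool.Agent.Q200.HE

open Pool.Agent.Q28.HJ (pow JoinData GenBy)

/-- The category `𝓜` of Chow motives, with rational coefficients, over an algebraic closure of a
finite field of characteristic at least five, with the hypersurfaces (of degrees prime to the
characteristic), and the varieties over the finite field. -/
structure SSData (𝓜 : Type u) [Category.{v} 𝓜] extends JoinData.{v, u, w} 𝓜 where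
  /-- the motive of a smooth hypersurface -/
  mot : Hyp → 𝓜
  /-- `M` is the motive of an abelian variety, of a curve or of a K3 surface -/
  Known : 𝓜 → Prop
  /-- the Frobenius endomorphisms act semisimply on the `l`-adic cohomology of `M` -/
  FrobSS : 𝓜 → Prop
  /-- the varieties (separated schemes of finite type) over the finite field -/
  Var : Type w
  /-- `X` is smooth and projective -/
  SmProj : Var → Prop
  /-- the Chow motive over the algebraic closure of a smooth projective `X` -/
  motV : Var → 𝓜
  /-- `Open U X`: `U` is an open subscheme of `X` -/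
  Open : Var → Var → Prop
  /-- `Onto Y X`: there is a proper surjective morphism `Y → X` -/
  Onto : Var → Var → Prop
  /-- the statement `SS_i(X)` for all `i` -/
  SS : Var → Prop

namespace SSData

variable {𝓜 : Type u} [Category.{v} 𝓜] [MonoidalCategory 𝓜] [Preadditive 𝓜]
  (T : SSData.{v, u, w} 𝓜)

/-- The motive is obtained by tensor products, direct sums, direct summands and Tate twists from the
motives of abelian varieties, curves, K3 surfaces and of the smooth hypersurfaces of arbitrary
dimension which are sums of small forms (see `IsSmallSum`). -/
def SmallType (M : 𝓜) : Prop :=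
  GenBy T.L (fun N => T.Known N ∨ ∃ W, T.IsSmallSum W ∧ N = T.mot W) M

/-- The smallest class of varieties which contains the smooth projective ones with motives of type
`SmallType`, with `X` all open subschemes of `X`, and with `Y` all `X` which are the image of a proper
surjective morphism `Y → X`. -/
inductive Dominated : T.Var → Prop
  | proj (X : T.Var) (h : T.SmProj X) (hM : T.SmallType (T.motV X)) : Dominated X
  | opens {U X : T.Var} (h : T.Open U X) (hX : Dominated X) : Dominated U
  | onto {Y X : T.Var} (h : T.Onto Y X) (hY : Dominated Y) : Dominated X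

/-- Known facts.
* `core`: sums of forms (Shioda, Katsura); `mot`: the motive of a hypersurface is a direct sum of `M_X`
  and of powers of `L`.
* `small`: Frobenius is semisimple on the primitive cohomology of the smooth hypersurfaces of dimension
  at most one, cubic hypersurfaces of dimension at most five, and quartic hypersurfaces of dimension at
  most three (curves and intermediate Jacobians: Weil; quartic surfaces: Deligne; cubic fourfolds: by
  the Kuga-Satake construction, Charles, Madapusi Pera).
* `known`: abelian varieties and curves (Weil), K3 surfaces (Deligne).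
* `unit` to `untwist`: tensor products, sums, summands and twists of semisimple representations.
* `proj`: for a smooth projective `X` the condition `SS_i(X)` is a part of the semisimplicity of
  Frobenius.
* `opens`, `onto`: the homology `H_m(X, ℚ_l(j))` has weights `≥ 2 j - m` (Deligne). So the part of
  weight zero of `H_(2i)(X, ℚ_l(i))` is mapped onto the one of `H_(2i)(U, ℚ_l(i))`, as
  `H_(2i-1)(X - U, ℚ_l(i))` has positive weights; and for a proper surjective morphism `Y → X` the part
  of weight zero of `H_(2i)(Y, ℚ_l(i))` is mapped onto the one of `H_(2i)(X, ℚ_l(i))`. -/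
structure Facts : Prop where
  core : T.CoreFacts
  mot : ∀ X : T.Hyp, T.Smooth X → GenBy T.L (fun N => N = T.prim X) (T.mot X)
  small : T.SmallFacts T.FrobSS
  known : ∀ M : 𝓜, T.Known M → T.FrobSS M
  unit : T.FrobSS (𝟙_ 𝓜)
  lef : T.FrobSS T.L
  tensor : ∀ M N : 𝓜, T.FrobSS M → T.FrobSS N → T.FrobSS (M ⊗ N)
  split : ∀ (M A A' : 𝓜) (i₁ : M ⟶ A) (r₁ : A ⟶ M) (i₂ : M ⟶ A') (r₂ : A' ⟶ M),
    i₁ ≫ r₁ + i₂ ≫ r₂ = 𝟙 M → T.FrobSS A → T.FrobSS A' → T.FrobSS M
  untwist : ∀ M : 𝓜, T.FrobSS (M ⊗ T.L) → T.FrobSS M
  proj : ∀ X : T.Var, T.SmProj X → T.FrobSS (T.motV X) → T.SS X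
  opens : ∀ {U X : T.Var}, T.Open U X → T.SS X → T.SS U
  onto : ∀ {Y X : T.Var}, T.Onto Y X → T.SS Y → T.SS X

end SSData

end Pool.Agent.Q200.HE
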