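import Pool.Agent.Q200.HE.SSDefs

/-!
# Semisimplicity for varieties dominated by sums of small forms
-/

open CategoryTheory MonoidalCategory

universe v u w

namespace Pool.Agent.Q200.HE

open Pool.Agent.Q28.HJ (pow JoinData GenBy)

namespace SSData

variable {𝓜 : Type u} [Category.{v} 𝓜] [Preadditive 𝓜] [MonoidalCategory 𝓜]
  {T : SSData.{v, u, w} 𝓜}

lemma frobSS_gen (hT : T.Facts) {Q : 𝓜 → Prop} (hQ : ∀ M, Q M → T.FrobSS M) {M : 𝓜}
    (hM : GenBy T.L Q M) : T.FrobSS M :=
  JoinData.genBy_property hT.unit hT.lef hT.tensor hT.split hT.untwist hQ hM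

lemma frobSS_small (hT : T.Facts) {M : 𝓜} (hM : T.SmallType M) : T.FrobSS M := by
  refine frobSS_gen hT ?_ hM
  rintro N (hN | ⟨W, hW, rfl⟩)
  · exact hT.known N hN
  · obtain ⟨hs, h⟩ := JoinData.small_sum hT.core hT.small hW
    refine frobSS_gen hT ?_ (hT.mot W hs)
    rintro N rfl
    exact frobSS_gen hT (fun _ h => h) h

/-- main theorem -/
theorem final (hT : T.Facts) : (∀ M : 𝓜, T.SmallType M → T.FrobSS M) ∧
    ∀ X : T.Var, T.Dominated X → T.SS X := by
  refine ⟨fun M hM => frobSS_small hT hM, fun X hX => ?_⟩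
  induction hX with
  | proj X h hM => exact hT.proj X h (frobSS_small hT hM)
  | opens h _ a => exact hT.opens h a
  | onto h _ a => exact hT.onto h a

end SSData

end Pool.Agent.Q200.HE
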