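import Pool.Agent.Q28.HJ.GDefs

/-!
# Higher Chow groups of open and singular varieties built from sums of ternary cubic forms
-/

open CategoryTheory MonoidalCategory

universe v u w

namespace Pool.Agent.Q200.HE

open Pool.Agent.Q28.HJ (pow JoinData GenBy)

/-- The category `𝓜` of Chow motives, with rational coefficients, over an algebraic closure of a
finite field of characteristic at least five, with the hypersurfaces; and the quasi-projective schemes
over a finite field with this closure. -/
structure TBData (𝓜 : Type u) [Category.{v} 𝓜] extends JoinData.{v, u, w} 𝓜 where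
  /-- `M = h^1(E)` for an elliptic curve `E` -/
  Ell : 𝓜 → Prop
  /-- the motive of a smooth hypersurface -/
  mot : Hyp → 𝓜
  /-- the quasi-projective schemes `X` over the finite field `F` -/
  Var : Type w
  /-- the product of schemes over `F` -/
  prodV : Var → Var → Var
  /-- `X` is smooth and projective -/
  SmProj : Var → Prop
  /-- `X` is smooth -/
  SmoothV : Var → Prop
  /-- the Chow motive over the algebraic closure of a smooth projective `X` -/
  motV : Var → 𝓜
  /-- `Dec Z X U`: `Z` is a closed subscheme of `X` and `U = X - Z` -/
  Dec : Var → Var → Var → Prop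
  /-- for all `i`, `j` the regulator from `CH_j(X, i - 2 j) ⊗ ℚ_l` to the Galois invariants of the
  `l`-adic homology `H_i(X, ℚ_l(j))` is bijective, and the eigenvalue one of Frobenius on this homology
  group is semisimple -/
  TB : Var → Prop
  /-- for all `i`, `j` the map `c_X^{i,j}` from `CH^j(X, 2 j - i) ⊗ ℚ_l` to the Galois invariants of
  `H^i(X, ℚ_l(j))` is bijective (`X` smooth) -/
  Bij : Var → Prop

namespace TBData

variable {𝓜 : Type u} [Category.{v} 𝓜] [MonoidalCategory 𝓜] [Preadditive 𝓜]
  (T : TBData.{v, u, w} 𝓜)

/-- The motive is obtained by tensor products, direct sums, direct summands and Tate twists from the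
motives `h^1(E)` of elliptic curves and the motives of the smooth hypersurfaces of arbitrary dimension
which are sums, in disjoint sets of variables, of cubic forms in at most three variables or of binary
quartic forms (see `IsEllipticSum`). -/
def EllipticType (M : 𝓜) : Prop :=
  GenBy T.L (fun N => T.Ell N ∨ ∃ W, T.IsEllipticSum W ∧ N = T.mot W) M

/-- The schemes obtained by decompositions `X = Z ∪ U`, `Z` closed, `U` open, from the smooth
projective ones whose motives are of type `EllipticType`: if two of the three `Z`, `X`, `U` belong to
the class, so does the third. -/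
inductive Built : T.Var → Prop
  | proj (X : T.Var) (h : T.SmProj X) (hM : T.EllipticType (T.motV X)) : Built X
  | total {Z X U : T.Var} (h : T.Dec Z X U) (hZ : Built Z) (hU : Built U) : Built X
  | opens {Z X U : T.Var} (h : T.Dec Z X U) (hZ : Built Z) (hX : Built X) : Built U
  | closed {Z X U : T.Var} (h : T.Dec Z X U) (hX : Built X) (hU : Built U) : Built Z

/-- Known facts.
* `core`: sums of forms (Shioda, Katsura); `elliptic`: plane cubic curves, cubic surfaces, quartic
  curves `f(x, y) = u ^ 4`; `mot`: the motive of a hypersurface is a direct sum of `M_X` and of powers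
  of `L`.
* `known`: a smooth projective `X` whose motive over the algebraic closure is generated by elliptic
  curves satisfies `TB` (Spiess: the Tate conjecture for products of elliptic curves; Kahn, Jannsen).
* `total`, `opens`, `closed` (Jannsen): if `TB` holds for two of `Z`, `X`, `U`, it holds for the third.
* `smooth`: Poincare duality.
* `smProj_prod`, `mot_prod`, `dec_left`, `dec_right`: products. -/
structure Facts : Prop where
  core : T.CoreFacts
  elliptic : T.EllipticFacts T.Ell
  mot : ∀ X : T.Hyp, T.Smooth X → GenBy T.L (fun N => N = T.prim X) (T.mot X)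
  known : ∀ X : T.Var, T.SmProj X → GenBy T.L T.Ell (T.motV X) → T.TB X
  total : ∀ {Z X U : T.Var}, T.Dec Z X U → T.TB Z → T.TB U → T.TB X
  opens : ∀ {Z X U : T.Var}, T.Dec Z X U → T.TB Z → T.TB X → T.TB U
  closed : ∀ {Z X U : T.Var}, T.Dec Z X U → T.TB X → T.TB U → T.TB Z
  smooth : ∀ X : T.Var, T.SmoothV X → T.TB X → T.Bij X
  smProj_prod : ∀ X Y : T.Var, T.SmProj X → T.SmProj Y → T.SmProj (T.prodV X Y)
  mot_prod : ∀ X Y : T.Var, T.SmProj X → T.SmProj Y →
    Nonempty (Retract (T.motV (T.prodV X Y)) (T.motV X ⊗ T.motV Y))
  dec_right : ∀ {Z X U : T.Var} (Y : T.Var), T.Dec Z X U →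
    T.Dec (T.prodV Z Y) (T.prodV X Y) (T.prodV U Y)
  dec_left : ∀ {Z X U : T.Var} (Y : T.Var), T.Dec Z X U →
    T.Dec (T.prodV Y Z) (T.prodV Y X) (T.prodV Y U)

end TBData

end Pool.Agent.Q200.HE
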