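import Pool.Agent.Q200.HE.TBDefs
import Pool.Agent.Q28.HJ.GMain

/-!
# Higher Chow groups of open and singular varieties built from sums of ternary cubic forms
-/

open CategoryTheory MonoidalCategory

universe v u w

namespace Pool.Agent.Q200.HE

open Pool.Agent.Q28.HJ (pow JoinData GenBy)

namespace TBData

variable {𝓜 : Type u} [Category.{v} 𝓜] [Preadditive 𝓜] [MonoidalCategory 𝓜]
  {T : TBData.{v, u, w} 𝓜}

lemma gen_ell (hT : T.Facts) {M : 𝓜} (hM : T.EllipticType M) : GenBy T.L T.Ell M := by
  refine GenBy.bind ?_ hM
  rintro N (hN | ⟨W, hW, rfl⟩)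
  · exact .of hN
  · obtain ⟨⟨hs, -⟩, h⟩ := JoinData.elliptic_sum hT.core hT.elliptic hW
    refine (hT.mot W hs).bind ?_
    rintro N rfl
    exact h

lemma built_tb (hT : T.Facts) {X : T.Var} (hX : T.Built X) : T.TB X := by
  induction hX with
  | proj X h hM => exact hT.known X h (gen_ell hT hM)
  | total h _ _ a b => exact hT.total h a b
  | opens h _ _ a b => exact hT.opens h a b
  | closed h _ _ a b => exact hT.closed h a b

/-- the class is stable under products -/
lemma built_prod (hT : T.Facts) {X Y : T.Var} (hX : T.Built X) (hY : T.Built Y) :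
    T.Built (T.prodV X Y) := by
  induction hX with
  | proj X h hM =>
    induction hY with
    | proj Y h' hM' =>
      obtain ⟨R⟩ := hT.mot_prod X Y h h'
      exact .proj _ (hT.smProj_prod X Y h h') (GenBy.retract (.tensor hM hM') R)
    | total h _ _ a b => exact .total (hT.dec_left X h) a b
    | opens h _ _ a b => exact .opens (hT.dec_left X h) a b
    | closed h _ _ a b => exact .closed (hT.dec_left X h) a b
  | total h _ _ a b => exact .total (hT.dec_right Y h) a b
  | opens h _ _ a b => exact .opens (hT.dec_right Y h) a b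
  | closed h _ _ a b => exact .closed (hT.dec_right Y h) a b

/-- main theorem -/
theorem final (hT : T.Facts) : (∀ X : T.Var, T.Built X → T.TB X) ∧
    (∀ X : T.Var, T.Built X → T.SmoothV X → T.Bij X) ∧
      ∀ X Y : T.Var, T.Built X → T.Built Y → T.Built (T.prodV X Y) :=
  ⟨fun X hX => built_tb hT hX, fun X hX hs => hT.smooth X hs (built_tb hT hX),
    fun X Y hX hY => built_prod hT hX hY⟩

end TBData

end Pool.Agent.Q200.HE
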